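import Pool.Agent.H.MP_1ce9e9_gt.D

set_option autoImplicit false

namespace Pool.Agent.Results.MP_709e2b_gt.Unbounded

open Classical in
/-- A geodesic multinet in the Euclidean plane `ℂ` with vertex set `V`, unbalanced vertices `U` and
edge multiplicities `m` (`m a b = 0` means that there is no edge from `a` to `b`). -/
structure IsMultinet (V U : Finset ℂ) (m : ℂ → ℂ → ℕ) : Prop where
  sub : U ⊆ V
  symm : ∀ a b, m a b = m b a
  supp : ∀ a b, m a b ≠ 0 → a ≠ b ∧ a ∈ V ∧ b ∈ V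
  conn : ∀ a ∈ V, ∀ b ∈ V, Relation.ReflTransGen (fun x y => m x y ≠ 0) a b
  meet : ∀ a b c d, m a b ≠ 0 → m c d ≠ 0 → ¬ ((a = c ∧ b = d) ∨ (a = d ∧ b = c)) →
    ∀ x ∈ segment ℝ a b ∩ segment ℝ c d, (x = a ∨ x = b) ∧ (x = c ∨ x = d)
  emb : ∀ a b v, m a b ≠ 0 → v ∈ V → v ∈ segment ℝ a b → v = a ∨ v = b
  deg : ∀ v ∈ V, v ∉ U → 3 ≤ (V.filter (fun w => m v w ≠ 0)).card
  bal : ∀ v ∈ V, v ∉ U → ∑ w ∈ V, (m v w : ℂ) * ((w - v) / ((‖w - v‖ : ℝ) : ℂ)) = 0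
  noUU : ∀ a ∈ U, ∀ b ∈ U, m a b = 0

open Classical in
theorem main : ∃ U : Finset ℂ, U.card = 3 ∧ ∀ N : ℕ, ∃ (V : Finset ℂ) (m : ℂ → ℂ → ℕ),
    IsMultinet V U m ∧ (∀ a b, m a b ≤ 5) ∧ N < (V \ U).card := by
  have hM : ∀ v, v ∈ (Finset.univ.image fun k : Fin 3 => H.MP_1ce9e9_gt.Pt k (-2)) ↔
      ∃ k, v = H.MP_1ce9e9_gt.Pt k (-2) := by
    intro v
    simp only [Finset.mem_image, Finset.mem_univ, true_and, eq_comm]
  refine ⟨Finset.univ.image fun k : Fin 3 => H.MP_1ce9e9_gt.Pt k (-2), ?_, fun N => ?_⟩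
  · rw [Finset.card_image_of_injective _ fun k l e => (H.MP_1ce9e9_gt.Pt_inj (by norm_num) e).1]
    simp
  obtain ⟨V, μ, p1, p2, p3, p4, p5, p6, p7, -, p9, p10, p11⟩ := H.MP_1ce9e9_gt.net (T := {2})
    (by simp; norm_num) (W0 := fun _ => 2) (W := fun _ => 5) (W1 := fun _ => 3)
    (by simp) (by simp) (by simp) (by simp) (B := 5) (by norm_num) (by simp) N
  simp only [Finset.mem_singleton, forall_eq] at p1 p7 p10
  have hn : ∀ v, v ∉ (Finset.univ.image fun k : Fin 3 => H.MP_1ce9e9_gt.Pt k (-2)) ↔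
      ∀ k, v ≠ H.MP_1ce9e9_gt.Pt k (-2) := by
    intro v; rw [hM]; simp
  refine ⟨V, μ, ⟨?_, p2, p3, p9, p5, p6, fun v hv h => (p7 v hv ((hn v).1 h)).1, ?_, ?_⟩, p4, ?_⟩
  · intro v hv
    obtain ⟨k, rfl⟩ := (hM v).1 hv
    exact p1 k
  · intro v hv h
    rw [← (p7 v hv ((hn v).1 h)).2, Finset.sum_filter]
    refine Finset.sum_congr rfl fun w _ => ?_
    split_ifs with hh
    · rfl
    · rw [not_not.1 hh]; simp
  · intro a ha b hb
    by_contra hab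
    obtain ⟨P, Q, h1, h2, h3, h4⟩ := p11 a b hab
    have hQ : ‖Q‖ ≤ 2 := by
      rcases h2 with h2 | ⟨t, ht, h2⟩
      · linarith
      · rw [h2, Finset.mem_singleton.1 ht]
    have key : ∀ c ∈ (Finset.univ.image fun k : Fin 3 => H.MP_1ce9e9_gt.Pt k (-2)),
        c ∈ segment ℝ P Q → c = Q := by
      intro c hc hs
      obtain ⟨k, hk⟩ := (hM c).1 hc
      have e : ‖c‖ = 2 := by rw [hk, H.MP_1ce9e9_gt.norm_Pt]; norm_num
      obtain ⟨s, t, s0, t0, st, rfl⟩ := hs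
      have := norm_add_le (s • P) (t • Q)
      rw [norm_smul, norm_smul, Real.norm_of_nonneg s0, Real.norm_of_nonneg t0, e] at this
      have : s = 0 := by nlinarith
      subst this
      have : t = 1 := by linarith
      subst this
      simp
    exact (p3 a b hab).1 ((key a ha h3).trans (key b hb h4).symm)
  · refine lt_of_lt_of_le p10 (Finset.card_le_card fun v hv => ?_)
    rw [Finset.mem_filter] at hv
    exact Finset.mem_sdiff.2 ⟨hv.1, (hn v).2 hv.2⟩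

open Classical in
theorem result :
    (¬ ∃ f : ℕ → ℕ, ∀ n : ℕ, 1 ≤ n → ∀ (V U : Finset ℂ) (m : ℂ → ℂ → ℕ),
      IsMultinet V U m → U.card = 3 → (∀ a b, m a b ≤ n) → (V \ U).card ≤ f n) ∧
    ∃ U : Finset ℂ, U.card = 3 ∧ ∀ N : ℕ, ∃ (V : Finset ℂ) (m : ℂ → ℂ → ℕ),
      IsMultinet V U m ∧ (∀ a b, m a b ≤ 5) ∧ N < (V \ U).card := by
  refine ⟨?_, main⟩
  rintro ⟨f, hf⟩
  obtain ⟨U, hU, h⟩ := main
  obtain ⟨V, m, h1, h2, h3⟩ := h (f 5)
  exact absurd (hf 5 (by norm_num) V U m h1 hU h2) (not_le.2 h3)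

end Pool.Agent.Results.MP_709e2b_gt.Unbounded
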